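import Mathlib
import Pool.Agent.MHP.StmtsS

set_option autoImplicit false

open scoped Classical

namespace Pool.Agent.MHP.H95

open Pool.Agent.HMT Pool.Agent.MHP

/-- a set in which every vertex has two neighbours contains no vertex of the star -/
theorem cor_sub {W : Type} (X : SimpleGraph W) (x : W) (n : ℕ) (r : Option (Fin n))
    (S : Set (W ⊕ {v : Option (Fin n) // v ≠ r}))
    (hS : ∀ w ∈ S, ∃ a ∈ S, ∃ b ∈ S, a ≠ b ∧ (glue X x (star n) r).Adj w a ∧
      (glue X x (star n) r).Adj w b) :
    ∀ w ∈ S, ∃ w', w = Sum.inl w' := by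
  -- leaves are not in `S`
  have hleaf : ∀ (i : Fin n) (hi : some i ≠ r), Sum.inr ⟨some i, hi⟩ ∉ S := by
    intro i hi hmem
    obtain ⟨a, haS, b, hbS, hab, h1, h2⟩ := hS _ hmem
    cases r with
    | none =>
      have key : ∀ c, (glue X x (star n) none).Adj (Sum.inr ⟨some i, hi⟩) c → c = Sum.inl x := by
        intro c hc
        rcases c with c | ⟨c, hcn⟩
        · have h3 : c = x := hc.1
          rw [h3]
        · have h3 : (star n).Adj (some i) c := hc
          rcases h3.2 with h4 | h4
          · exact absurd h4 (by simp)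
          · exact absurd h4 hcn
      exact hab ((key a h1).trans (key b h2).symm)
    | some i₀ =>
      have key : ∀ c, (glue X x (star n) (some i₀)).Adj (Sum.inr ⟨some i, hi⟩) c →
          c = Sum.inr ⟨none, by simp⟩ := by
        intro c hc
        rcases c with c | ⟨c, hcn⟩
        · have h3 : (star n).Adj (some i₀) (some i) := hc.2
          rcases h3.2 with h4 | h4
          · exact absurd h4 (by simp)
          · exact absurd h4 (by simp)
        · have h3 : (star n).Adj (some i) c := hc
          rcases h3.2 with h4 | h4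
          · exact absurd h4 (by simp)
          · subst h4; rfl
      exact hab ((key a h1).trans (key b h2).symm)
  intro w hw
  rcases w with w | ⟨v, hv⟩
  · exact ⟨w, rfl⟩
  · exfalso
    cases v with
    | some i => exact hleaf i hv hw
    | none =>
      obtain ⟨a, haS, b, hbS, hab, h1, h2⟩ := hS _ hw
      have key : ∀ c ∈ S, (glue X x (star n) r).Adj (Sum.inr ⟨none, hv⟩) c → c = Sum.inl x := by
        intro c hcS hc
        rcases c with c | ⟨c, hcn⟩
        · have h3 : c = x := hc.1
          rw [h3]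
        · have h3 : (star n).Adj none c := hc
          cases c with
          | none => exact absurd rfl h3.1
          | some j => exact absurd hcS (hleaf j hcn)
      exact hab ((key a haS h1).trans (key b hbS h2).symm)

theorem cor_core {W : Type} (X : SimpleGraph W) (x : W) (n : ℕ) (r : Option (Fin n)) :
    core (glue X x (star n) r) = Sum.inl '' core X := by
  ext v
  constructor
  · rintro ⟨S, hvS, hS⟩
    have hsub := cor_sub X x n r S hS
    obtain ⟨v', rfl⟩ := hsub v hvS
    refine ⟨v', ⟨Sum.inl ⁻¹' S, hvS, ?_⟩, rfl⟩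
    intro w hw
    obtain ⟨a, haS, b, hbS, hab, h1, h2⟩ := hS (Sum.inl w) hw
    obtain ⟨a', rfl⟩ := hsub a haS
    obtain ⟨b', rfl⟩ := hsub b hbS
    exact ⟨a', haS, b', hbS, fun h => hab (congrArg _ h), h1, h2⟩
  · rintro ⟨v', ⟨S, hvS, hS⟩, rfl⟩
    refine ⟨Sum.inl '' S, ⟨v', hvS, rfl⟩, ?_⟩
    rintro _ ⟨w, hw, rfl⟩
    obtain ⟨a, haS, b, hbS, hab, h1, h2⟩ := hS w hw
    exact ⟨Sum.inl a, ⟨a, haS, rfl⟩, Sum.inl b, ⟨b, hbS, rfl⟩,
      fun h => hab (Sum.inl_injective h), h1, h2⟩

theorem cor : CorStmt := by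
  intro W _ X x n r
  rw [cor_core X x n r]
  refine ⟨SimpleGraph.Iso.symm
    { toEquiv := Equiv.Set.image Sum.inl (core X) Sum.inl_injective
      map_rel_iff' := ?_ }⟩
  intro a b
  exact Iff.rfl

end Pool.Agent.MHP.H95
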