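import Mathlib
import Pool.Agent.MHP.Stmts

set_option autoImplicit false

namespace Pool.Agent.MHP.H95

open Pool.Agent.HMT Pool.Agent.MHP

theorem emb_map_adj {V W : Type} (e : V ↪ W) (Z : Finset (Sym2 V)) :
    SimpleGraph.fromEdgeSet ((Z.map e.sym2Map : Finset (Sym2 W)) : Set (Sym2 W)) =
      (SimpleGraph.fromEdgeSet (Z : Set (Sym2 V))).map e := by
  ext a b
  rw [SimpleGraph.fromEdgeSet_adj, SimpleGraph.map_adj]
  constructor
  · rintro ⟨h1, h2⟩
    rw [Finset.mem_coe, Finset.mem_map] at h1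
    obtain ⟨s, hs, hse⟩ := h1
    induction s using Sym2.ind with
    | _ u v =>
      have h3 : s(e u, e v) = s(a, b) := hse
      rcases Sym2.eq_iff.mp h3 with ⟨h4, h5⟩ | ⟨h4, h5⟩
      · refine ⟨u, v, ?_, h4, h5⟩
        rw [SimpleGraph.fromEdgeSet_adj]
        refine ⟨hs, ?_⟩
        rintro rfl
        exact h2 (h4.symm.trans h5)
      · refine ⟨v, u, ?_, h5, h4⟩
        rw [SimpleGraph.fromEdgeSet_adj]
        refine ⟨?_, ?_⟩
        · rw [Sym2.eq_swap]; exact hs
        · rintro rfl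
          exact h2 (h5.symm.trans h4)
  · rintro ⟨u, v, huv, rfl, rfl⟩
    rw [SimpleGraph.fromEdgeSet_adj] at huv
    refine ⟨?_, fun h => huv.2 (e.injective h)⟩
    rw [Finset.mem_coe, Finset.mem_map]
    exact ⟨s(u, v), huv.1, rfl⟩

theorem emb_fin {V W : Type} [Finite V] [Finite W] (e : V ↪ W) (C : SimpleGraph V) :
    (Set.toFinite (C.map e).edgeSet).toFinset =
      (Set.toFinite C.edgeSet).toFinset.map e.sym2Map := by
  ext s
  rw [Set.Finite.mem_toFinset, Finset.mem_map, SimpleGraph.edgeSet_map, Set.mem_image]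
  constructor
  · rintro ⟨t, ht, rfl⟩
    exact ⟨t, (Set.Finite.mem_toFinset _).mpr ht, rfl⟩
  · rintro ⟨t, ht, rfl⟩
    exact ⟨t, (Set.Finite.mem_toFinset _).mp ht, rfl⟩

theorem emb : EmbStmt := by
  intro V W _ _ M _ e C F
  unfold tog
  rw [emb_fin e C]
  symm
  refine Finset.sum_nbij (fun Z => Z.map e.sym2Map) ?_ ?_ ?_ ?_
  · intro Z hZ
    rw [Finset.mem_powerset] at hZ ⊢
    exact Finset.map_subset_map.mpr hZ
  · intro Z _ Z' _ h
    exact Finset.map_injective _ h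
  · intro Z hZ
    rw [Finset.mem_coe, Finset.mem_powerset, Finset.subset_map_iff] at hZ
    obtain ⟨u, hu, rfl⟩ := hZ
    exact ⟨u, Finset.mem_coe.mpr (Finset.mem_powerset.mpr hu), rfl⟩
  · intro Z _
    rw [Finset.card_map, emb_map_adj]

end Pool.Agent.MHP.H95
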